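import Pool.Agent.Helper57.SI.Stmts

/-! Row DW of sheet SI: the lower bound for the logarithmic derivative in a direction. -/

set_option autoImplicit false

namespace Pool.Agent.Helper68.SI

open MeasureTheory Set Filter Topology
open Pool.Agent.Helper57.QZ (Pr tor circ aa Zy Wy Sy Vy Ky Fy pt lin)
open Pool.Agent.Helper57.SI

theorem dw_re (a θ φ : ℝ) : (Complex.exp (-((θ : ℂ) * Complex.I)) *
    ((a : ℂ) * Complex.exp (-((φ : ℂ) * Complex.I)))).re = a * Real.cos (θ + φ) := by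
  have h : Complex.exp (-((θ : ℂ) * Complex.I)) * ((a : ℂ) * Complex.exp (-((φ : ℂ) * Complex.I))) =
      (a : ℂ) * Complex.exp (((-(θ + φ) : ℝ) : ℂ) * Complex.I) := by
    rw [mul_left_comm, ← Complex.exp_add]
    congr 2
    push_cast
    ring
  rw [h, Complex.re_ofReal_mul, Complex.exp_ofReal_mul_I_re, Real.cos_neg]

theorem dw_nrm (θ : ℝ) (w : ℂ) : ‖Complex.exp (-((θ : ℂ) * Complex.I)) * w‖ = ‖w‖ := by
  have h : Complex.exp (-((θ : ℂ) * Complex.I)) = Complex.exp (((-θ : ℝ) : ℂ) * Complex.I) := by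
    congr 1
    push_cast
    ring
  rw [norm_mul, h, Complex.norm_exp_ofReal_mul_I, one_mul]

theorem dw_sum (x : ℕ) (g : ℕ → ℝ) :
    ∑ p : Pr x, g (p : ℕ) = ∑ p ∈ Nat.primesBelow (x + 1), g p :=
  (Finset.sum_subtype (Nat.primesBelow (x + 1)) (fun _ => Iff.rfl) g).symm

theorem st_DW (h1 : Pool.Agent.Helper57.QZ.ST_DT2) : ST_DW := by
  obtain ⟨C0, hC0⟩ := h1 (1 / 4) (by norm_num)
  refine ⟨max C0 1, lt_of_lt_of_le one_pos (le_max_right _ _), ?_⟩
  intro y z t θ η η' hzy hD htl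
  obtain ⟨h, hh⟩ : ∃ h : ℕ → ℝ, h = fun p : ℕ =>
      Real.log (p : ℝ) / (p : ℝ) * Real.cos (θ + t * Real.log (p : ℝ)) :=
    ⟨_, rfl⟩
  -- the linear part
  have e1 : (Complex.exp (-((θ : ℂ) * Complex.I)) * Vy y 1 (lin y t)).re = ∑ p : Pr y, h (p : ℕ) := by
    unfold Vy
    rw [Finset.mul_sum, Complex.re_sum]
    refine Finset.sum_congr rfl fun p _ => ?_
    rw [dw_re, hh]
    unfold aa lin
    rw [Real.rpow_neg_one]
    simp only [div_eq_inv_mul]
  have e2 : (Complex.exp (-((θ : ℂ) * Complex.I)) * tl 1 y z (lin y t)).re =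
      ∑ p : Pr y, (if z < (p : ℕ) then h (p : ℕ) else 0) := by
    unfold tl
    rw [Finset.mul_sum, Complex.re_sum]
    refine Finset.sum_congr rfl fun p _ => ?_
    split_ifs with hp
    · rw [dw_re, hh, pow_one]
      rfl
    · rw [mul_zero, Complex.zero_re]
  have e3 : (Complex.exp (-((θ : ℂ) * Complex.I)) * tl 1 y z (lin y t)).re ≤ η := by
    refine (Complex.re_le_norm _).trans ?_
    rw [dw_nrm]
    exact htl
  have e4 : ∑ p : Pr y, h (p : ℕ) = ∑ p : Pr y, (if z < (p : ℕ) then h (p : ℕ) else 0) +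
      ∑ p : Pr y, (if z < (p : ℕ) then 0 else h (p : ℕ)) := by
    rw [← Finset.sum_add_distrib]
    refine Finset.sum_congr rfl fun p _ => ?_
    split_ifs <;> simp
  have e5 : ∑ p : Pr y, (if z < (p : ℕ) then 0 else h (p : ℕ)) =
      ∑ p ∈ Nat.primesBelow (z + 1), h p := by
    rw [dw_sum y (fun p => if z < p then 0 else h p)]
    have hsub : Nat.primesBelow (z + 1) ⊆ Nat.primesBelow (y + 1) := by
      intro p hp
      rw [Nat.mem_primesBelow] at hp ⊢
      exact ⟨by omega, hp.2⟩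
    rw [← Finset.sum_subset hsub]
    · refine Finset.sum_congr rfl fun p hp => ?_
      rw [Nat.mem_primesBelow] at hp
      rw [if_neg (by omega)]
    · intro p hp hp2
      rw [Nat.mem_primesBelow] at hp hp2
      rw [if_pos]
      by_contra hcon
      exact hp2 ⟨by omega, hp.2⟩
  have e6 : P2 z - D2 z (θ + Real.pi) t = -∑ p ∈ Nat.primesBelow (z + 1), h p := by
    unfold P2 D2
    rw [dw_sum z (fun p => Real.log (p : ℝ) *
      (1 - Real.cos (t * Real.log (p : ℝ) + (θ + Real.pi))) / (p : ℝ)), ← Finset.sum_sub_distrib,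
      ← Finset.sum_neg_distrib]
    refine Finset.sum_congr rfl fun p _ => ?_
    rw [hh]
    have e7 : t * Real.log (p : ℝ) + (θ + Real.pi) = (θ + t * Real.log (p : ℝ)) + Real.pi := by ring
    rw [e7, Real.cos_add_pi]
    ring
  have e8 : (Complex.exp (-((θ : ℂ) * Complex.I)) * Wy y 1 (lin y t)).re =
      (Complex.exp (-((θ : ℂ) * Complex.I)) * (Wy y 1 (lin y t) + Vy y 1 (lin y t))).re -
      (Complex.exp (-((θ : ℂ) * Complex.I)) * Vy y 1 (lin y t)).re := by
    rw [← Complex.sub_re, ← mul_sub, add_sub_cancel_right]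
  have e9 : -C0 ≤
      (Complex.exp (-((θ : ℂ) * Complex.I)) * (Wy y 1 (lin y t) + Vy y 1 (lin y t))).re := by
    have a1 := (abs_le.1 (Complex.abs_re_le_norm
      (Complex.exp (-((θ : ℂ) * Complex.I)) * (Wy y 1 (lin y t) + Vy y 1 (lin y t))))).1
    rw [dw_nrm] at a1
    have a2 := hC0 y 1 (lin y t) (by norm_num)
    linarith
  have e10 := le_max_left C0 1
  rw [e8, e1, e4, ← e2, e5]
  linarith

end Pool.Agent.Helper68.SI
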